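import Mathlib
import Pool.Agent.H16.GridSweep
import Pool.Agent.H16.RedBWDefs
import Pool.Agent.H16.RedBWExists

/-!
# Three-dimensional grids have unbounded reduced bandwidth
-/

namespace Pool.Agent.Results.MP_1dbc65_co.GridsUnbounded

open SimpleGraph Finset
open Pool.Agent.H16.GridSweep Pool.Agent.H16.RedBW

theorem exists_order {V : Type} [Fintype V] (H : SimpleGraph V) {k : ℕ} (h : bandwidth H ≤ k) :
    ∃ σ : V ≃ Fin (Fintype.card V),
      ∀ u v : V, H.Adj u v → |((σ u : ℕ) : ℤ) - ((σ v : ℕ) : ℤ)| ≤ (k : ℤ) := by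
  have hne : {b : ℕ | ∃ σ : V ≃ Fin (Fintype.card V),
      ∀ u v : V, H.Adj u v → |((σ u : ℕ) : ℤ) - ((σ v : ℕ) : ℤ)| ≤ (b : ℤ)}.Nonempty := by
    refine ⟨Fintype.card V, Fintype.equivFin V, fun u v _ => ?_⟩
    rw [abs_le]
    omega
  obtain ⟨σ, hσ⟩ := Nat.sInf_mem hne
  refine ⟨σ, fun u v huv => (hσ u v huv).trans ?_⟩
  have h' : ((bandwidth H : ℕ) : ℤ) ≤ (k : ℤ) := by exact_mod_cast h
  exact h'

/-- adjacency of grid points -/
def GA (v w : Vt) : Prop := ∃ d, w = sh d v ∨ v = sh d w

theorem GA_symm {v w : Vt} (h : GA v w) : GA w v := by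
  obtain ⟨d, h⟩ := h
  exact ⟨d, h.symm⟩

theorem nbrs_card (n : ℕ) (w : Vt) [DecidablePred (GA w)] :
    ((box n).filter (fun v => GA w v)).card ≤ 6 := by
  classical
  have hsub : (box n).filter (fun v => GA w v) ⊆
      (univ : Finset (Fin 3)).image (fun d => sh d w) ∪
      (univ : Finset (Fin 3)).biUnion (fun d => (box n).filter (fun v => w = sh d v)) := by
    intro v hv
    obtain ⟨hv1, d, hd⟩ := mem_filter.1 hv
    rw [mem_union, mem_image, mem_biUnion]
    rcases hd with hd | hd
    · left; exact ⟨d, mem_univ _, hd.symm⟩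
    · right; exact ⟨d, mem_univ _, mem_filter.2 ⟨hv1, hd⟩⟩
  refine (card_le_card hsub).trans ((card_union_le _ _).trans ?_)
  have h1 : ((univ : Finset (Fin 3)).image (fun d => sh d w)).card ≤ 3 := by
    refine card_image_le.trans ?_
    simp
  have h2 : ((univ : Finset (Fin 3)).biUnion
      (fun d => (box n).filter (fun v => w = sh d v))).card ≤ 3 := by
    refine card_biUnion_le.trans ?_
    calc _ ≤ ∑ _d ∈ (univ : Finset (Fin 3)), 1 := by
          apply sum_le_sum
          intro d _
          rw [card_le_one]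
          intro a ha b hb
          exact sh_inj d ((mem_filter.1 ha).2.symm.trans (mem_filter.1 hb).2)
      _ = 3 := by simp
  omega

/-- the vertex of the grid graph at a grid point -/
def toV {n : ℕ} (hn : 0 < n) (v : Vt) : (Fin n × Fin n) × Fin n :=
  ((⟨v.1 % n, Nat.mod_lt _ hn⟩, ⟨v.2.1 % n, Nat.mod_lt _ hn⟩), ⟨v.2.2 % n, Nat.mod_lt _ hn⟩)

theorem toV_injOn {n : ℕ} (hn : 0 < n) {v w : Vt} (hv : v ∈ box n) (hw : w ∈ box n)
    (h : toV hn v = toV hn w) : v = w := by
  rw [mem_box] at hv hw
  simp only [toV, Prod.mk.injEq, Fin.mk.injEq] at h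
  rw [Nat.mod_eq_of_lt hv.1, Nat.mod_eq_of_lt hv.2.1, Nat.mod_eq_of_lt hv.2.2,
    Nat.mod_eq_of_lt hw.1, Nat.mod_eq_of_lt hw.2.1, Nat.mod_eq_of_lt hw.2.2] at h
  obtain ⟨x, y, z⟩ := v
  obtain ⟨x', y', z'⟩ := w
  simp only at h
  rw [h.1.1, h.1.2, h.2]

theorem adj_toV {n : ℕ} (hn : 0 < n) {v w : Vt} (hv : v ∈ box n) (hw : w ∈ box n) :
    (((pathGraph n).boxProd (pathGraph n)).boxProd (pathGraph n)).Adj (toV hn v) (toV hn w) ↔ GA v w := by
  rw [mem_box] at hv hw
  rw [boxProd_adj, boxProd_adj]
  simp only [toV, pathGraph_adj, Prod.mk.injEq, Fin.mk.injEq]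
  rw [Nat.mod_eq_of_lt hv.1, Nat.mod_eq_of_lt hv.2.1, Nat.mod_eq_of_lt hv.2.2,
    Nat.mod_eq_of_lt hw.1, Nat.mod_eq_of_lt hw.2.1, Nat.mod_eq_of_lt hw.2.2]
  obtain ⟨x, y, z⟩ := v
  obtain ⟨x', y', z'⟩ := w
  simp only
  constructor
  · rintro (⟨(⟨h1, h2⟩ | ⟨h1, h2⟩), h3⟩ | ⟨h1, h2, h3⟩)
    · refine ⟨0, ?_⟩
      simp only [sh0, Prod.mk.injEq]; omega
    · refine ⟨1, ?_⟩
      simp only [sh1, Prod.mk.injEq]; omega
    · refine ⟨2, ?_⟩
      simp only [sh2, Prod.mk.injEq]; omega
  · rintro ⟨d, h⟩
    fin_cases d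
    · simp only [Fin.zero_eta, sh0, Prod.mk.injEq] at h; omega
    · simp only [Fin.mk_one, sh1, Prod.mk.injEq] at h; omega
    · simp only [Fin.reduceFinMk, sh2, Prod.mk.injEq] at h; omega

/-- `p` assigns the grid points to the vertices of the trigraph -/
structure Inv (n : ℕ) {i : ℕ} (T : Trigraph (Fin i)) (p : Vt → Fin i) : Prop where
  edge : ∀ v w, v ∈ box n → w ∈ box n → GA v w → p v ≠ p w → T.Edge (p v) (p w)
  black : ∀ v w, v ∈ box n → w ∈ box n → T.black.Adj (p v) (p w) → GA v w

theorem edge_symm {V : Type} {T : Trigraph V} {x y : V} (h : T.Edge x y) : T.Edge y x := by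
  rcases h with h | h
  · exact Or.inl h.symm
  · exact Or.inr h.symm

theorem Inv.step {n i : ℕ} {T : Trigraph (Fin (i + 1))} {T' : Trigraph (Fin i)}
    {u v : Fin (i + 1)} {w : Fin i} {f : Fin (i + 1) → Fin i} {p : Vt → Fin (i + 1)}
    (h : Inv n T p) (hm : IsMerge T T' u v w f) : Inv n T' (fun x => f (p x)) := by
  -- the new vertex and another one
  have hnew : ∀ a b, (a = u ∨ a = v) → b ≠ u → b ≠ v → T.Edge a b → T'.Edge (f a) (f b) := by
    intro a b ha hbu hbv hab
    have hfa : f a = w := by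
      rcases ha with rfl | rfl
      · exact hm.map_u
      · exact hm.map_v
    rw [hfa]
    by_cases hb : T.black.Adj u b ∧ T.black.Adj v b
    · exact Or.inl ((hm.new_black b hbu hbv).2 hb)
    · refine Or.inr ((hm.new_red b hbu hbv).2 ⟨hb, ?_⟩)
      rintro ⟨h1, h2⟩
      rcases ha with rfl | rfl
      · exact h1 hab
      · exact h2 hab
  have hnewb : ∀ a b, (a = u ∨ a = v) → b ≠ u → b ≠ v → T'.black.Adj (f a) (f b) →
      T.black.Adj a b := by
    intro a b ha hbu hbv hab
    have hfa : f a = w := by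
      rcases ha with rfl | rfl
      · exact hm.map_u
      · exact hm.map_v
    rw [hfa] at hab
    have := (hm.new_black b hbu hbv).1 hab
    rcases ha with rfl | rfl
    · exact this.1
    · exact this.2
  constructor
  · intro x y hx hy hxy hne
    have hne' : p x ≠ p y := fun hh => hne (by rw [hh])
    have hE := h.edge x y hx hy hxy hne'
    by_cases hpx : p x = u ∨ p x = v
    · by_cases hpy : p y = u ∨ p y = v
      · exfalso
        apply hne
        have h1 : f (p x) = w := by
          rcases hpx with hh | hh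
          · rw [hh]; exact hm.map_u
          · rw [hh]; exact hm.map_v
        have h2 : f (p y) = w := by
          rcases hpy with hh | hh
          · rw [hh]; exact hm.map_u
          · rw [hh]; exact hm.map_v
        rw [h1, h2]
      · push Not at hpy
        exact hnew _ _ hpx hpy.1 hpy.2 hE
    · by_cases hpy : p y = u ∨ p y = v
      · push Not at hpx
        exact edge_symm (hnew _ _ hpy hpx.1 hpx.2 (edge_symm hE))
      · push Not at hpx hpy
        rcases hE with hE | hE
        · exact Or.inl ((hm.old_black _ _ hpx.1 hpx.2 hpy.1 hpy.2).2 hE)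
        · exact Or.inr ((hm.old_red _ _ hpx.1 hpx.2 hpy.1 hpy.2).2 hE)
  · intro x y hx hy hxy
    apply h.black x y hx hy
    by_cases hpx : p x = u ∨ p x = v
    · by_cases hpy : p y = u ∨ p y = v
      · exfalso
        have h1 : f (p x) = w := by
          rcases hpx with hh | hh
          · rw [hh]; exact hm.map_u
          · rw [hh]; exact hm.map_v
        have h2 : f (p y) = w := by
          rcases hpy with hh | hh
          · rw [hh]; exact hm.map_u
          · rw [hh]; exact hm.map_v
        simp only [h1, h2] at hxy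
        exact T'.black.loopless.irrefl _ hxy
      · push Not at hpy
        exact hnewb _ _ hpx hpy.1 hpy.2 hxy
    · by_cases hpy : p y = u ∨ p y = v
      · push Not at hpx
        exact (hnewb _ _ hpy hpx.1 hpx.2 hxy.symm).symm
      · push Not at hpx hpy
        exact (hm.old_black _ _ hpx.1 hpx.2 hpy.1 hpy.2).1 hxy

/-- the part of a grid point -/
def part (n : ℕ) {i : ℕ} (p : Vt → Fin i) (v : Vt) : Finset Vt :=
  (box n).filter (fun w => p w = p v)

/-- the grid points in large parts -/
def bigS (n : ℕ) {i : ℕ} (p : Vt → Fin i) : Finset Vt :=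
  (box n).filter (fun v => 7 ≤ (part n p v).card)

theorem valid_of_inv {n i k N : ℕ} (hi : i ≤ N) {T : Trigraph (Fin i)} {p : Vt → Fin i}
    (h : Inv n T p) (hb : bandwidth T.red ≤ k) : ∃ q, Valid n k N (bigS n p) q := by
  classical
  obtain ⟨σ, hσ⟩ := exists_order T.red hb
  refine ⟨fun v => (σ (p v) : ℕ), ?_, ?_, ?_⟩
  · -- closeness
    have key : ∀ v w, v ∈ box n → w ∈ box n → GA v w → v ∈ bigS n p →
        |((σ (p v) : ℕ) : ℤ) - ((σ (p w) : ℕ) : ℤ)| ≤ (k : ℤ) := by
      intro v w hv hw hvw hbig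
      by_cases heq : p v = p w
      · rw [heq, sub_self, abs_zero]; positivity
      · rcases h.edge v w hv hw hvw heq with hE | hE
        · exfalso
          have h7 := (mem_filter.1 hbig).2
          have hsub : part n p v ⊆ (box n).filter (fun x => GA w x) := by
            intro x hx
            obtain ⟨hx1, hx2⟩ := mem_filter.1 hx
            refine mem_filter.2 ⟨hx1, GA_symm ?_⟩
            apply h.black x w hx1 hw
            rw [hx2]; exact hE
          have h1 := card_le_card hsub
          have h2 := nbrs_card n w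
          omega
        · exact hσ _ _ hE
    intro v d hd hor
    have hv := box_of_sh hd
    rcases hor with hS | hS
    · have := key v (sh d v) hv hd ⟨d, Or.inl rfl⟩ hS
      rw [abs_le] at this
      simp only
      omega
    · have := key (sh d v) v hd hv ⟨d, Or.inr rfl⟩ hS
      rw [abs_le] at this
      simp only
      omega
  · -- few
    intro m
    by_contra hgt
    push Not at hgt
    have hne : ((box n \ bigS n p).filter (fun v => ((σ (p v) : ℕ)) = m)).Nonempty := by
      rw [← card_pos]; omega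
    obtain ⟨v0, hv0⟩ := hne
    obtain ⟨h1, h2⟩ := mem_filter.1 hv0
    obtain ⟨h3, h4⟩ := mem_sdiff.1 h1
    have hsub : (box n \ bigS n p).filter (fun v => ((σ (p v) : ℕ)) = m) ⊆ part n p v0 := by
      intro x hx
      obtain ⟨hx1, hx2⟩ := mem_filter.1 hx
      refine mem_filter.2 ⟨(mem_sdiff.1 hx1).1, ?_⟩
      apply σ.injective
      apply Fin.ext
      rw [hx2, h2]
    have h5 := card_le_card hsub
    have h6 : ¬ 7 ≤ (part n p v0).card := fun hh => h4 (mem_filter.2 ⟨h3, hh⟩)
    omega
  · intro v _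
    have h1 := (σ (p v)).isLt
    have h2 : Fintype.card (Fin i) = i := Fintype.card_fin i
    omega

theorem bigS_step {n i : ℕ} {T : Trigraph (Fin (i + 1))} {T' : Trigraph (Fin i)}
    {u v : Fin (i + 1)} {w : Fin i} {f : Fin (i + 1) → Fin i} {p : Vt → Fin (i + 1)}
    (hm : IsMerge T T' u v w f) :
    bigS n p ⊆ bigS n (fun x => f (p x)) ∧
      (bigS n (fun x => f (p x)) \ bigS n p).card ≤ 12 := by
  classical
  constructor
  · intro x hx
    obtain ⟨hx1, hx2⟩ := mem_filter.1 hx
    refine mem_filter.2 ⟨hx1, hx2.trans (card_le_card ?_)⟩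
    intro y hy
    obtain ⟨hy1, hy2⟩ := mem_filter.1 hy
    exact mem_filter.2 ⟨hy1, by simp only; rw [hy2]⟩
  · have hsmall : ∀ a : Fin (i + 1),
        ((box n).filter (fun x => p x = a ∧ x ∉ bigS n p)).card ≤ 6 := by
      intro a
      by_contra hgt
      push Not at hgt
      have hne : ((box n).filter (fun x => p x = a ∧ x ∉ bigS n p)).Nonempty := by
        rw [← card_pos]; omega
      obtain ⟨v0, hv0⟩ := hne
      obtain ⟨h1, h2, h3⟩ := mem_filter.1 hv0
      have hsub : (box n).filter (fun x => p x = a ∧ x ∉ bigS n p) ⊆ part n p v0 := by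
        intro x hx
        obtain ⟨hx1, hx2, _⟩ := mem_filter.1 hx
        exact mem_filter.2 ⟨hx1, by rw [hx2, h2]⟩
      have h5 := card_le_card hsub
      have h6 : ¬ 7 ≤ (part n p v0).card := fun hh => h3 (mem_filter.2 ⟨h1, hh⟩)
      omega
    have hsub : bigS n (fun x => f (p x)) \ bigS n p ⊆
        (box n).filter (fun x => p x = u ∧ x ∉ bigS n p) ∪
        (box n).filter (fun x => p x = v ∧ x ∉ bigS n p) := by
      intro x hx
      obtain ⟨hx1, hx2⟩ := mem_sdiff.1 hx
      obtain ⟨hx3, hx4⟩ := mem_filter.1 hx1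
      rw [mem_union, mem_filter, mem_filter]
      by_contra hcon
      push Not at hcon
      have hu : p x ≠ u := fun hh => hx2 (hcon.1 hx3 hh)
      have hv : p x ≠ v := fun hh => hx2 (hcon.2 hx3 hh)
      apply hx2
      refine mem_filter.2 ⟨hx3, hx4.trans (card_le_card ?_)⟩
      intro y hy
      obtain ⟨hy1, hy2⟩ := mem_filter.1 hy
      refine mem_filter.2 ⟨hy1, ?_⟩
      rcases hm.inj _ _ hy2 with hh | hh
      · exact hh
      · exfalso
        rcases hh.2 with h1 | h1
        · exact hu h1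
        · exact hv h1
    refine (card_le_card hsub).trans ((card_union_le _ _).trans ?_)
    have h1 := hsmall u
    have h2 := hsmall v
    omega

theorem lower_bound {n k : ℕ} (hn : 10 ^ 6 * (k + 1) ≤ n) :
    k < reducedBandwidth (((pathGraph n).boxProd (pathGraph n)).boxProd (pathGraph n)) := by
  classical
  set G := ((pathGraph n).boxProd (pathGraph n)).boxProd (pathGraph n) with hG
  by_contra hle
  push Not at hle
  have hn0 : 0 < n := by omega
  have hne : {b : ℕ | ∃ s : ReductionSequence G,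
      ∀ i, 1 ≤ i → i ≤ Fintype.card ((Fin n × Fin n) × Fin n) →
        bandwidth (s.T i).red ≤ b}.Nonempty := by
    obtain ⟨s⟩ := exists_sequence G
    refine ⟨∑ i ∈ range (Fintype.card ((Fin n × Fin n) × Fin n) + 1), bandwidth (s.T i).red,
      s, fun i _ h2 => ?_⟩
    exact single_le_sum (f := fun i => bandwidth (s.T i).red) (fun _ _ => Nat.zero_le _)
      (mem_range.2 (by omega))
  obtain ⟨s, hs⟩ := Nat.sInf_mem hne
  have hs' : ∀ i, 1 ≤ i → i ≤ Fintype.card ((Fin n × Fin n) × Fin n) →
      bandwidth (s.T i).red ≤ k := fun i h1 h2 => (hs i h1 h2).trans hle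
  set N := Fintype.card ((Fin n × Fin n) × Fin n) with hN
  have hNpos : 1 ≤ N := by
    rw [hN]
    simp only [Fintype.card_prod, Fintype.card_fin]
    have : 0 < n * n * n := by positivity
    omega
  have h7 : 7 ≤ n ^ 3 := by
    calc 7 ≤ n := by omega
      _ ≤ n ^ 3 := Nat.le_self_pow (by norm_num) n
  have key : ∀ j i : ℕ, i + j = N → 1 ≤ i → ∃ p : Vt → Fin i, Inv n (s.T i) p ∧
      ∃ q, Valid n k N (bigS n p) q ∧ tau n N (bigS n p) q = 0 := by
    intro j
    induction j with
    | zero =>
      intro i hi _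
      obtain rfl : i = N := by omega
      have hinv : Inv n (s.T N) (fun v => s.e (toV hn0 v)) := by
        constructor
        · intro v w hv hw hvw _
          exact Or.inl ((s.start_black _ _).2 ((adj_toV hn0 hv hw).2 hvw))
        · intro v w hv hw hvw
          exact (adj_toV hn0 hv hw).1 ((s.start_black _ _).1 hvw)
      refine ⟨_, hinv, ?_⟩
      obtain ⟨q, hq⟩ := valid_of_inv (N := N) le_rfl hinv (hs' N hNpos le_rfl)
      refine ⟨q, hq, ?_⟩
      have hempty : bigS n (fun v => s.e (toV hn0 v)) = ∅ := by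
        rw [bigS, filter_eq_empty_iff]
        intro v hv h
        have : (part n (fun v => s.e (toV hn0 v)) v).card ≤ 1 := by
          rw [card_le_one]
          intro a ha b hb
          obtain ⟨ha1, ha2⟩ := mem_filter.1 ha
          obtain ⟨hb1, hb2⟩ := mem_filter.1 hb
          exact toV_injOn hn0 ha1 hb1 (s.e.injective (ha2.trans hb2.symm))
        omega
      rw [hempty]
      exact tau_empty n N hn0 q
    | succ j ih =>
      intro i hi h1
      obtain ⟨p, hinv, q, hq, htau⟩ := ih (i + 1) (by omega) (by omega)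
      obtain ⟨u, v, w, f, hm⟩ := s.step i h1 (by omega)
      have hinv' := hinv.step hm
      refine ⟨_, hinv', ?_⟩
      obtain ⟨q', hq'⟩ := valid_of_inv (N := N) (by omega) hinv' (hs' i h1 (by omega))
      refine ⟨q', hq', ?_⟩
      obtain ⟨hb1, hb2⟩ := bigS_step (n := n) (p := p) hm
      rw [← tau_invariant hn hb1 hb2 hq hq']
      exact htau
  obtain ⟨p, _, q, _, htau⟩ := key (N - 1) 1 (by omega) le_rfl
  have hfull : bigS n p = box n := by
    apply filter_true_of_mem
    intro v _
    have : part n p v = box n := by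
      apply filter_true_of_mem
      intro w _
      exact Subsingleton.elim _ _
    rw [this, card_box]
    exact h7
  rw [hfull, tau_full hn0] at htau
  exact absurd htau (by decide)

/-- **Main result**: no constant bounds the reduced bandwidth of all three-dimensional grids. -/
theorem result : ¬ ∃ k : ℕ, ∀ a b c : ℕ, 1 ≤ a → 1 ≤ b → 1 ≤ c →
    reducedBandwidth (((pathGraph a).boxProd (pathGraph b)).boxProd (pathGraph c)) ≤ k := by
  rintro ⟨k, hk⟩
  have hpos : 1 ≤ 10 ^ 6 * (k + 1) := by omega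
  have h := hk _ _ _ hpos hpos hpos
  have h2 := lower_bound (n := 10 ^ 6 * (k + 1)) (k := k) le_rfl
  omega

end Pool.Agent.Results.MP_1dbc65_co.GridsUnbounded
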